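import Pool.Agent.Helper64.RTwo.CodeBit

set_option autoImplicit false

namespace RTwo

open Finset

/-- exchange of neighbouring blocks of `s` -/
def flp (s t : ℕ) : ℕ := if t / s % 2 = 0 then s + t else t - s

theorem swp_testBit {m s : ℕ} (X : ℕ) (hs0 : 0 < s)
    (hm : ∀ t, m.testBit t = decide (t < 256 ∧ t / s % 2 = 0))
    (hs : 256 / s % 2 = 0) (hs' : 256 % s = 0) (t : ℕ) :
    (swp m s X).testBit t = (decide (t < 256) && X.testBit (flp s t)) := by
  have e0 : swp m s X = ((X >>> s) &&& m) ||| ((X &&& m) <<< s) := rfl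
  have hm256 : s * (256 / s) = 256 := by
    have := Nat.div_add_mod 256 s
    omega
  have hd : s ≤ t → t / s = (t - s) / s + 1 := fun h => Nat.div_eq_sub_div hs0 h
  have hz : t < s → t / s = 0 := fun h => Nat.div_eq_of_lt h
  rw [e0, Nat.testBit_or, Nat.testBit_and, Nat.testBit_shiftRight, Nat.testBit_shiftLeft,
    Nat.testBit_and, hm, hm, flp]
  by_cases ht : t < 256
  · by_cases hp : t / s % 2 = 0
    · have e1 : (decide (t ≥ s) && (X.testBit (t - s) &&
          decide (t - s < 256 ∧ (t - s) / s % 2 = 0))) = false := by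
        by_cases h : s ≤ t
        · have := hd h
          have e2 : ¬ (t - s < 256 ∧ (t - s) / s % 2 = 0) := by omega
          simp [e2]
        · have e2 : ¬ (t ≥ s) := h
          simp [e2]
      rw [e1]
      simp [ht, hp]
    · have h : s ≤ t := by
        by_contra h
        have := hz (by omega)
        omega
      have := hd h
      have e1 : t - s < 256 ∧ (t - s) / s % 2 = 0 := by omega
      have e2 : ¬ (t < 256 ∧ t / s % 2 = 0) := by omega
      rw [decide_eq_false e2, decide_eq_true e1]
      simp [ht, hp, h]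
  · have e1 : ¬ (t < 256 ∧ t / s % 2 = 0) := by omega
    have e2 : (decide (t ≥ s) && (X.testBit (t - s) &&
          decide (t - s < 256 ∧ (t - s) / s % 2 = 0))) = false := by
      by_cases h : s ≤ t
      · have h1 := hd h
        have e2 : ¬ (t - s < 256 ∧ (t - s) / s % 2 = 0) := by
          rintro ⟨h2, h3⟩
          have h4 : (t - s) / s < 256 / s := by
            apply (Nat.div_lt_iff_lt_mul hs0).2
            rw [Nat.mul_comm, hm256]
            exact h2
          have h5 : t / s < 256 / s := by omega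
          have h6 := (Nat.div_lt_iff_lt_mul hs0).1 h5
          rw [Nat.mul_comm, hm256] at h6
          exact ht h6
        simp [e2]
      · have e2 : ¬ (t ≥ s) := h
        simp [e2]
    rw [decide_eq_false e1, e2]
    simp [ht]

theorem mask_testBit {m s : ℕ} (h1 : m < 2 ^ 256)
    (h2 : ∀ t < 256, m.testBit t = decide (t / s % 2 = 0)) (t : ℕ) :
    m.testBit t = decide (t < 256 ∧ t / s % 2 = 0) := by
  by_cases ht : t < 256
  · rw [h2 t ht]
    simp [ht]
  · rw [Nat.testBit_lt_two_pow (lt_of_lt_of_le h1 (Nat.pow_le_pow_right (by norm_num) (by omega)))]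
    simp [ht]

/-- the seven exchanges -/
def rev7 (X : ℕ) : ℕ :=
    (swp 0xffffffffffffffffffffffffffffffff 128
    (swp 0x0000000000000000ffffffffffffffff0000000000000000ffffffffffffffff 64
    (swp 0x00000000ffffffff00000000ffffffff00000000ffffffff00000000ffffffff 32
    (swp 0x0000ffff0000ffff0000ffff0000ffff0000ffff0000ffff0000ffff0000ffff 16
    (swp 0x00ff00ff00ff00ff00ff00ff00ff00ff00ff00ff00ff00ff00ff00ff00ff00ff 8
    (swp 0x0f0f0f0f0f0f0f0f0f0f0f0f0f0f0f0f0f0f0f0f0f0f0f0f0f0f0f0f0f0f0f0f 4
    (swp 0x3333333333333333333333333333333333333333333333333333333333333333 2 X)))))))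

theorem rev7_testBit (X t : ℕ) : (rev7 X).testBit t =
    (decide (t < 256) && X.testBit (2 * (127 - t / 2) + t % 2)) := by
  have k2 := swp_testBit (m := 0x3333333333333333333333333333333333333333333333333333333333333333)
    (s := 2) X (by norm_num) (mask_testBit (by norm_num) (by decide +kernel)) (by norm_num)
    (by norm_num)
  have k4 := fun X => swp_testBit
    (m := 0x0f0f0f0f0f0f0f0f0f0f0f0f0f0f0f0f0f0f0f0f0f0f0f0f0f0f0f0f0f0f0f0f)
    (s := 4) X (by norm_num) (mask_testBit (by norm_num) (by decide +kernel)) (by norm_num)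
    (by norm_num)
  have k8 := fun X => swp_testBit
    (m := 0x00ff00ff00ff00ff00ff00ff00ff00ff00ff00ff00ff00ff00ff00ff00ff00ff)
    (s := 8) X (by norm_num) (mask_testBit (by norm_num) (by decide +kernel)) (by norm_num)
    (by norm_num)
  have k16 := fun X => swp_testBit
    (m := 0x0000ffff0000ffff0000ffff0000ffff0000ffff0000ffff0000ffff0000ffff)
    (s := 16) X (by norm_num) (mask_testBit (by norm_num) (by decide +kernel)) (by norm_num)
    (by norm_num)
  have k32 := fun X => swp_testBit
    (m := 0x00000000ffffffff00000000ffffffff00000000ffffffff00000000ffffffff)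
    (s := 32) X (by norm_num) (mask_testBit (by norm_num) (by decide +kernel)) (by norm_num)
    (by norm_num)
  have k64 := fun X => swp_testBit
    (m := 0x0000000000000000ffffffffffffffff0000000000000000ffffffffffffffff)
    (s := 64) X (by norm_num) (mask_testBit (by norm_num) (by decide +kernel)) (by norm_num)
    (by norm_num)
  have k128 := fun X => swp_testBit
    (m := 0xffffffffffffffffffffffffffffffff)
    (s := 128) X (by norm_num) (mask_testBit (by norm_num) (by decide +kernel)) (by norm_num)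
    (by norm_num)
  unfold rev7
  rw [k128, k64, k32, k16, k8, k4, k2]
  by_cases ht : t < 256
  · have f : ∀ t < 256, flp 128 t < 256 ∧ flp 64 (flp 128 t) < 256 ∧
        flp 32 (flp 64 (flp 128 t)) < 256 ∧ flp 16 (flp 32 (flp 64 (flp 128 t))) < 256 ∧
        flp 8 (flp 16 (flp 32 (flp 64 (flp 128 t)))) < 256 ∧
        flp 4 (flp 8 (flp 16 (flp 32 (flp 64 (flp 128 t))))) < 256 ∧
        flp 2 (flp 4 (flp 8 (flp 16 (flp 32 (flp 64 (flp 128 t)))))) =
          2 * (127 - t / 2) + t % 2 := by
      decide +kernel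
    obtain ⟨f1, f2, f3, f4, f5, f6, f7⟩ := f t ht
    simp only [ht, f1, f2, f3, f4, f5, f6, f7, decide_true, Bool.true_and]
  · simp [ht]

theorem st_REV (h1 : ST_BITS) : ST_REV := by
  intro n c hn0 hn hc
  have hc' : ∀ i j, i < n → j < n → (fun i j => c (n - 1 - i) (n - 1 - j)) i j ≤ 3 :=
    fun i j hi hj => hc _ _ (by omega) (by omega)
  have e0 : revn n (code n c) = rev7 (code n c) >>> (276 - 22 * n) := by
    unfold revn rev7
    have : Nat.sub 276 (Nat.mul 22 n) = 276 - 22 * n := rfl
    rw [this]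
    rfl
  apply Nat.eq_of_testBit_eq
  intro t
  rw [e0, Nat.testBit_shiftRight, rev7_testBit, code_testBit h1 hn hc, code_testBit h1 hn hc',
    Bool.eq_iff_iff]
  simp only [Bool.and_eq_true, decide_eq_true_eq]
  have d1 : t = 20 * (t / 20) + 2 * (t % 20 / 2) + t % 2 := by omega
  have d2 : t % 20 / 2 < 10 := by omega
  generalize t / 20 = i at *
  generalize t % 20 / 2 = j at *
  have d3 : t % 2 < 2 := by omega
  generalize t % 2 = e at *
  subst d1
  constructor
  · rintro ⟨g1, ⟨g2, g3⟩, g4⟩
    have hi : i < n := by omega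
    have hj : j < n := by omega
    have a0 : 2 * (127 - (276 - 22 * n + (20 * i + 2 * j + e)) / 2) +
        (276 - 22 * n + (20 * i + 2 * j + e)) % 2 =
        20 * (n - 1 - i) + 2 * (n - 1 - j) + e := by omega
    rw [a0] at g4
    have a1 : (20 * (n - 1 - i) + 2 * (n - 1 - j) + e) / 20 = n - 1 - i := by omega
    have a2 : (20 * (n - 1 - i) + 2 * (n - 1 - j) + e) % 20 / 2 = n - 1 - j := by omega
    have a3 : (20 * (n - 1 - i) + 2 * (n - 1 - j) + e) % 2 = e := by omega
    rw [a1, a2, a3] at g4
    exact ⟨⟨hi, hj⟩, g4⟩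
  · rintro ⟨⟨hi, hj⟩, g4⟩
    have a0 : 2 * (127 - (276 - 22 * n + (20 * i + 2 * j + e)) / 2) +
        (276 - 22 * n + (20 * i + 2 * j + e)) % 2 =
        20 * (n - 1 - i) + 2 * (n - 1 - j) + e := by omega
    rw [a0]
    have a1 : (20 * (n - 1 - i) + 2 * (n - 1 - j) + e) / 20 = n - 1 - i := by omega
    have a2 : (20 * (n - 1 - i) + 2 * (n - 1 - j) + e) % 20 / 2 = n - 1 - j := by omega
    have a3 : (20 * (n - 1 - i) + 2 * (n - 1 - j) + e) % 2 = e := by omega
    rw [a1, a2, a3]
    exact ⟨by omega, ⟨by omega, by omega⟩, g4⟩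

end RTwo
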