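import Pool.Agent.Helper64.RTwo.CodeBit

set_option autoImplicit false

namespace RTwo

open Finset

theorem C0_lt {m : ℕ} (hm : m ≤ 10) : C0 * (4 ^ m - 1) < 2 ^ 200 := by
  have h : ∀ m ≤ 10, C0 * (4 ^ m - 1) < 2 ^ 200 := by decide +kernel
  exact h m hm

theorem C0_testBit {m : ℕ} (hm : m ≤ 10) (t : ℕ) :
    (C0 * (4 ^ m - 1)).testBit t = decide (t < 200 ∧ t % 20 < 2 * m) := by
  by_cases ht : t < 200
  · have h : ∀ m < 11, ∀ t < 200, (C0 * (4 ^ m - 1)).testBit t = decide (t % 20 < 2 * m) := by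
      decide +kernel
    rw [h m (by omega) t ht]
    simp [ht]
  · have h1 : C0 * (4 ^ m - 1) < 2 ^ t :=
      lt_of_lt_of_le (C0_lt hm) (Nat.pow_le_pow_right (by norm_num) (by omega))
    rw [Nat.testBit_lt_two_pow h1]
    simp [ht]

/-- rotation of the rows -/
def rotY (k r X : ℕ) : ℕ := (X >>> (20 * r)) ||| ((X % 2 ^ (20 * r)) <<< (20 * (k - r)))

theorem rotr_eq (k r X : ℕ) : rotr k r X =
    ((rotY k r X) >>> (2 * r) &&& (C0 * (4 ^ (k - r) - 1))) |||
      ((rotY k r X &&& (C0 * (4 ^ r - 1))) <<< (2 * (k - r))) := rfl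

theorem rotY_testBit {k r X : ℕ} (hr : r < k) (hX : ∀ t, 20 * k ≤ t → X.testBit t = false)
    (t : ℕ) : (rotY k r X).testBit t =
      (decide (t / 20 < k) && X.testBit (20 * ((t / 20 + r) % k) + t % 20)) := by
  unfold rotY
  rw [Nat.testBit_or, Nat.testBit_shiftRight, Nat.testBit_shiftLeft, Nat.testBit_mod_two_pow]
  by_cases h1 : t / 20 + r < k
  · rw [Nat.mod_eq_of_lt h1]
    have e1 : 20 * (t / 20 + r) + t % 20 = 20 * r + t := by omega
    rw [e1]
    have e2 : ¬ (20 * (k - r) ≤ t) := by omega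
    have e3 : t / 20 < k := by omega
    simp [e2, e3]
  · have e0 : X.testBit (20 * r + t) = false := hX _ (by omega)
    rw [e0]
    by_cases h2 : t / 20 < k
    · have e1 : (t / 20 + r) % k = t / 20 + r - k := by
        rw [Nat.mod_eq_sub_mod (by omega), Nat.mod_eq_of_lt (by omega)]
      rw [e1]
      have e2 : 20 * (t / 20 + r - k) + t % 20 = t - 20 * (k - r) := by omega
      rw [e2]
      have e3 : 20 * (k - r) ≤ t := by omega
      have e4 : t - 20 * (k - r) < 20 * r := by omega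
      simp [h2, e3, e4]
    · have e4 : ¬ (t - 20 * (k - r) < 20 * r) := by omega
      simp [h2, e4]

theorem st_ROT (h1 : ST_BITS) : ST_ROT := by
  intro k r c hk hr hc
  have hc' : ∀ i j, i < k → j < k → (fun i j => c ((i + r) % k) ((j + r) % k)) i j ≤ 3 :=
    fun i j hi hj => hc _ _ (Nat.mod_lt _ (by omega)) (Nat.mod_lt _ (by omega))
  have hX : ∀ t, 20 * k ≤ t → (code k c).testBit t = false := (h1 k c hk hc).2.2.1
  apply Nat.eq_of_testBit_eq
  intro t
  rw [code_testBit h1 hk hc', rotr_eq, Nat.testBit_or, Nat.testBit_and, Nat.testBit_shiftRight,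
    Nat.testBit_shiftLeft, Nat.testBit_and, C0_testBit (by omega), C0_testBit (by omega)]
  have key : ∀ s, (rotY k r (code k c)).testBit s =
      (decide (s / 20 < k ∧ s % 20 / 2 < k) && (c ((s / 20 + r) % k) (s % 20 / 2)).testBit
        (s % 2)) := by
    intro s
    rw [rotY_testBit hr hX]
    by_cases hs : s / 20 < k
    · have hm : (s / 20 + r) % k < k := Nat.mod_lt _ (by omega)
      rw [code_testBit h1 hk hc]
      have a1 : (20 * ((s / 20 + r) % k) + s % 20) / 20 = (s / 20 + r) % k := by omega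
      have a2 : (20 * ((s / 20 + r) % k) + s % 20) % 20 = s % 20 := by omega
      have a3 : (20 * ((s / 20 + r) % k) + s % 20) % 2 = s % 2 := by omega
      rw [a1, a2, a3]
      simp [hs, hm]
    · simp [hs]
  rw [key, key, Bool.eq_iff_iff]
  simp only [Bool.or_eq_true, Bool.and_eq_true, decide_eq_true_eq, ge_iff_le]
  constructor
  · rintro (⟨⟨⟨g1, g2⟩, g3⟩, g4, g5⟩ | ⟨g1, ⟨⟨g2, g3⟩, g4⟩, g5, g6⟩)
    · have a1 : (2 * r + t) / 20 = t / 20 := by omega
      have a2 : (2 * r + t) % 20 / 2 = t % 20 / 2 + r := by omega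
      have a3 : (2 * r + t) % 2 = t % 2 := by omega
      have a4 : (t % 20 / 2 + r) % k = t % 20 / 2 + r := Nat.mod_eq_of_lt (by omega)
      rw [a1, a2, a3] at g3
      refine ⟨⟨by omega, by omega⟩, ?_⟩
      rw [a4]
      exact g3
    · have a1 : (t - 2 * (k - r)) / 20 = t / 20 := by omega
      have a2 : (t % 20 / 2 + r) % k = (t - 2 * (k - r)) % 20 / 2 := by
        rw [Nat.mod_eq_sub_mod (by omega), Nat.mod_eq_of_lt (by omega)]
        omega
      have a3 : (t - 2 * (k - r)) % 2 = t % 2 := by omega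
      refine ⟨⟨by omega, by omega⟩, ?_⟩
      rw [a2, ← a3, ← a1]
      exact g4
  · rintro ⟨⟨g1, g2⟩, g3⟩
    by_cases hq : t % 20 < 2 * (k - r)
    · left
      have a1 : (2 * r + t) / 20 = t / 20 := by omega
      have a2 : (2 * r + t) % 20 / 2 = t % 20 / 2 + r := by omega
      have a3 : (2 * r + t) % 2 = t % 2 := by omega
      have a4 : (t % 20 / 2 + r) % k = t % 20 / 2 + r := Nat.mod_eq_of_lt (by omega)
      refine ⟨⟨⟨by omega, by omega⟩, ?_⟩, by omega, by omega⟩
      rw [a1, a2, a3, ← a4]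
      exact g3
    · right
      have a1 : (t - 2 * (k - r)) / 20 = t / 20 := by omega
      have a2 : (t % 20 / 2 + r) % k = (t - 2 * (k - r)) % 20 / 2 := by
        rw [Nat.mod_eq_sub_mod (by omega), Nat.mod_eq_of_lt (by omega)]
        omega
      have a3 : (t - 2 * (k - r)) % 2 = t % 2 := by omega
      refine ⟨by omega, ⟨⟨by omega, by omega⟩, ?_⟩, by omega, by omega⟩
      rw [a1, a3, ← a2]
      exact g3

end RTwo
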