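import Pool.Agent.Helper45.RT.Stmts3

set_option autoImplicit false

namespace RTwo

open Finset

/-- all bits of a code -/
theorem code_testBit (hB : ST_BITS) {n : ℕ} {c : Col} (hn : n ≤ 10)
    (hc : ∀ i j, i < n → j < n → c i j ≤ 3) (t : ℕ) :
    (code n c).testBit t =
      (decide (t / 20 < n ∧ t % 20 / 2 < n) && (c (t / 20) (t % 20 / 2)).testBit (t % 2)) := by
  obtain ⟨h1, h2, h3, -, -⟩ := hB n c hn hc
  have ht : t = 20 * (t / 20) + 2 * (t % 20 / 2) + t % 2 := by omega
  by_cases hi : t / 20 < n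
  · by_cases hj : t % 20 / 2 < n
    · rw [ht, h1 _ _ _ hi hj (by omega), ← ht]
      simp [hi, hj]
    · have := h2 (t / 20) (t % 20 / 2) (t % 2) hi (by omega) hj (by omega)
      rw [← ht] at this
      rw [this]
      simp [hj]
  · rw [h3 t (by omega)]
    simp [hi]

theorem dgt_testBit (hB : ST_BITS) (X i j e : ℕ) (he : e < 2) :
    (dgt X i j).testBit e = X.testBit (20 * i + 2 * j + e) :=
  (hB 0 (fun _ _ => 0) (by omega) (by omega)).2.2.2.2 X i j e he

end RTwo
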